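import Mathlib
import Pool.Agent.H969NR.Small2

/-!
# A positive answer implies stationary reflection above the continuum

Let `κ` be an uncountable regular cardinal and let `S ⊆ κ` be a stationary set of points of
cofinality `ω` which does not reflect. The one-point compactification `X` of the ladder system space
on `S` is not Eberlein compact (it is not even Corson compact), although the closures of all
subsets of `X` of size less than `κ` are uniform Eberlein compact.

If `κ > 𝔠`, this is a counterexample to Q1. So a positive answer to Q1 implies that all stationary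
sets of points of cofinality `ω` in regular cardinals `κ > 𝔠` reflect; this fails for example in `L`
(and whenever `□_λ` holds for some `λ ≥ 𝔠`), so that Q1 cannot be proved in ZFC.
-/

set_option autoImplicit false

namespace Pool.Agent.Results.MP_ba6bfd_gt.YesGivesReflection

open Cardinal Order Set Filter Topology

theorem result (κ : Cardinal.{0}) (hκ : κ.IsRegular) (hκ0 : ℵ₀ < κ)
    (h : ∀ (X : Type) [TopologicalSpace X] [CompactSpace X] [T2Space X],
      (∀ A : Set X, Cardinal.mk A < κ →
        ∃ (Γ : Type) (f : ↥(closure A) → (Γ → ℝ)), Continuous f ∧ Function.Injective f ∧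
          (∀ x, (Function.support (f x)).encard ≤ 2) ∧ ∀ x γ, f x γ = 0 ∨ f x γ = 1) →
      ∃ (Γ : Type) (f : X → (Γ → ℝ)), Continuous f ∧ Function.Injective f ∧
        (∀ x, Filter.Tendsto (f x) Filter.cofinite (nhds 0)) ∧
        ∃ M : ℝ, ∀ x γ, |f x γ| ≤ M)
    (S : Set κ.ord.ToType) (hS : IsStationary S) (hcof : ∀ α ∈ S, Order.cof (Iio α) = ℵ₀) :
    ∃ δ : κ.ord.ToType, ℵ₀ < Order.cof (Iio δ) ∧ IsStationary {x : Iio δ | x.1 ∈ S} := by
  by_contra hcon
  push Not at hcon
  obtain ⟨X, _, _, _, hsmall, hnot⟩ := Pool.Agent.H969NR.main_exists2 κ hκ hκ0 S hS hcof hcon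
  obtain ⟨Γ, f, hf, hinj, hc0, -⟩ := h X hsmall
  refine hnot Γ f hf hinj fun x => ?_
  have h2 := (hc0 x).countable_compl_preimage_ker
  rw [ker_nhds] at h2
  exact h2

end Pool.Agent.Results.MP_ba6bfd_gt.YesGivesReflection
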